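import Pool.Agent.N662.FP.Stm2

/-!
# Weighted log-concavity from midpoint log-concavity and monotonicity
-/

set_option autoImplicit false

open Filter Set
open scoped Topology

namespace Pool.Agent.N285.FM

open Pool.Agent.N662.FP

/-- dyadic weights -/
theorem dyadic (H : ℝ → ℝ)
    (hm : ∀ c c' : ℝ, 0 ≤ c → c ≤ 1 → 0 ≤ c' → c' ≤ 1 → (H c + H c') / 2 ≤ H ((c + c') / 2))
    (n : ℕ) : ∀ k : ℕ, k ≤ 2 ^ n →
      ((k : ℝ) / 2 ^ n) * H 1 + (1 - (k : ℝ) / 2 ^ n) * H 0 ≤ H ((k : ℝ) / 2 ^ n) := by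
  induction n with
  | zero =>
    intro k hk
    have hk' : k = 0 ∨ k = 1 := by
      have : k ≤ 1 := by simpa using hk
      omega
    rcases hk' with rfl | rfl
    · simp
    · simp
  | succ n ih =>
    intro k hk
    have hp : (0 : ℝ) < 2 ^ n := by positivity
    rcases Nat.even_or_odd' k with ⟨j, hj | hj⟩
    · have hj2 : j ≤ 2 ^ n := by rw [pow_succ] at hk; omega
      have e : (k : ℝ) / 2 ^ (n + 1) = (j : ℝ) / 2 ^ n := by
        rw [hj]; push_cast; rw [pow_succ]; field_simp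
      rw [e]
      exact ih j hj2
    · have hj2 : j + 1 ≤ 2 ^ n := by rw [pow_succ] at hk; omega
      have h1 := ih j (by omega)
      have h2 := ih (j + 1) hj2
      have hjR : ((j : ℝ) + 1) ≤ 2 ^ n := by exact_mod_cast hj2
      have hj0 : (0 : ℝ) ≤ j := Nat.cast_nonneg j
      push_cast at h2
      have c1 : 0 ≤ (j : ℝ) / 2 ^ n := by positivity
      have c2 : (j : ℝ) / 2 ^ n ≤ 1 := by rw [div_le_one hp]; linarith
      have c3 : 0 ≤ ((j : ℝ) + 1) / 2 ^ n := by positivity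
      have c4 : ((j : ℝ) + 1) / 2 ^ n ≤ 1 := by rw [div_le_one hp]; linarith
      have h3 := hm _ _ c1 c2 c3 c4
      have e : (k : ℝ) / 2 ^ (n + 1) = ((j : ℝ) / 2 ^ n + ((j : ℝ) + 1) / 2 ^ n) / 2 := by
        rw [hj]; push_cast; rw [pow_succ]; field_simp; ring
      rw [e]
      linarith

theorem t_FULL : S_FULL := by
  intro G h0 hG hmid x y θ hxy hθ0 hθ1
  by_cases hx : G x = 0
  · rw [hx, Real.zero_rpow hθ0.ne', zero_mul]
    exact h0 _
  by_cases hy : G y = 0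
  · rw [hy, Real.zero_rpow (by linarith : (1 - θ) ≠ 0), mul_zero]
    exact h0 _
  have hx' : 0 < G x := lt_of_le_of_ne (h0 x) (Ne.symm hx)
  have hy' : 0 < G y := lt_of_le_of_ne (h0 y) (Ne.symm hy)
  have hpos : ∀ c : ℝ, 0 ≤ c → 0 < G (c * x + (1 - c) * y) := by
    intro c hc
    refine lt_of_lt_of_le hy' (hG ?_)
    nlinarith
  set H : ℝ → ℝ := fun c => Real.log (G (c * x + (1 - c) * y)) with hH
  have hm : ∀ c c' : ℝ, 0 ≤ c → c ≤ 1 → 0 ≤ c' → c' ≤ 1 → (H c + H c') / 2 ≤ H ((c + c') / 2) := by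
    intro c c' hc _ hc' _
    have h1 := hmid (c * x + (1 - c) * y) (c' * x + (1 - c') * y)
    have e : (c * x + (1 - c) * y + (c' * x + (1 - c') * y)) / 2 =
        (c + c') / 2 * x + (1 - (c + c') / 2) * y := by ring
    rw [e] at h1
    have p1 := hpos c hc
    have p2 := hpos c' hc'
    have p3 := hpos ((c + c') / 2) (by linarith)
    have h2 := Real.log_le_log (mul_pos p1 p2) h1
    rw [Real.log_mul p1.ne' p2.ne', Real.log_pow] at h2
    push_cast at h2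
    simp only [hH]
    linarith
  have hdy := dyadic H hm
  have hkey : θ * H 1 + (1 - θ) * H 0 ≤ H θ := by
    have ht : Tendsto (fun n : ℕ => ((⌊θ * 2 ^ n⌋₊ : ℝ) / 2 ^ n)) atTop (𝓝 θ) :=
      (tendsto_nat_floor_mul_div_atTop hθ0.le).comp
        (tendsto_pow_atTop_atTop_of_one_lt (by norm_num : (1 : ℝ) < 2))
    have ht2 : Tendsto (fun n : ℕ => ((⌊θ * 2 ^ n⌋₊ : ℝ) / 2 ^ n) * H 1 +
        (1 - ((⌊θ * 2 ^ n⌋₊ : ℝ) / 2 ^ n)) * H 0) atTop (𝓝 (θ * H 1 + (1 - θ) * H 0)) :=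
      (ht.mul_const _).add ((tendsto_const_nhds.sub ht).mul_const _)
    refine le_of_tendsto' ht2 fun n => ?_
    have hp : (0 : ℝ) < 2 ^ n := by positivity
    have hfl : (⌊θ * 2 ^ n⌋₊ : ℝ) ≤ θ * 2 ^ n := Nat.floor_le (by positivity)
    have hle : (⌊θ * 2 ^ n⌋₊ : ℝ) / 2 ^ n ≤ θ := by
      rw [div_le_iff₀ hp]; exact hfl
    have hk : ⌊θ * 2 ^ n⌋₊ ≤ 2 ^ n := by
      have h1 : (⌊θ * 2 ^ n⌋₊ : ℝ) ≤ 2 ^ n := by nlinarith
      exact_mod_cast h1
    refine (hdy n _ hk).trans ?_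
    have hc0 : 0 ≤ (⌊θ * 2 ^ n⌋₊ : ℝ) / 2 ^ n := by positivity
    simp only [hH]
    refine Real.log_le_log (hpos _ hc0) (hG ?_)
    nlinarith
  have e1 : H 1 = Real.log (G x) := by simp [hH]
  have e0 : H 0 = Real.log (G y) := by simp [hH]
  rw [e1, e0] at hkey
  rw [Real.rpow_def_of_pos hx', Real.rpow_def_of_pos hy', ← Real.exp_add]
  have hfin : Real.exp (H θ) = G (θ * x + (1 - θ) * y) := Real.exp_log (hpos θ hθ0.le)
  rw [← hfin]
  apply Real.exp_le_exp.2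
  linarith

end Pool.Agent.N285.FM
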